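import Pool.Agent.H23.GC.Targets3
import Pool.Agent.H80.GC.Y

/-! Module K1 of gc_modules (MP_684e05_nt): radius four, the residue class `1`. -/

set_option autoImplicit false

open Finset Pool.Agent.H23.GW Pool.Agent.H23.GC Pool.Agent.H80.GC
open scoped Classical Nat

namespace Pool.Agent.H87.GC

noncomputable section

variable {ι : Type} [Fintype ι] {G : Type} [AddCommGroup G]

/-- square of a fibre sum -/
theorem sq_fib {U W : Finset (ι → ℤ)} (ev : (ι → ℤ) →+ G)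
    (h : ∀ c ∈ W, ∃! d : ι → ℤ, d ∈ U ∧ ev d = ev c) (f : (ι → ℤ) → ℝ) :
    ∑ d ∈ U, (∑ c ∈ W with ev c = ev d, f c) ^ 2 =
      ∑ c ∈ W, f c ^ 2 + ∑ q ∈ W ×ˢ W with ev q.1 = ev q.2 ∧ q.1 ≠ q.2, f q.1 * f q.2 := by
  have h1 : ∑ d ∈ U, (∑ c ∈ W with ev c = ev d, f c) ^ 2 =
      ∑ d ∈ U, ∑ c ∈ W with ev c = ev d, f c * ∑ c' ∈ W with ev c' = ev c, f c' := by
    refine Finset.sum_congr rfl fun d _ => ?_
    rw [sq, Finset.sum_mul]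
    refine Finset.sum_congr rfl fun c hc => ?_
    rw [mem_filter] at hc
    rw [hc.2]
  rw [h1, sum_fib ev h, Finset.sum_filter, Finset.sum_product, ← Finset.sum_add_distrib]
  refine Finset.sum_congr rfl fun c hc => ?_
  have h2 : f c ^ 2 = ∑ c' ∈ W, if c = c' then f c * f c' else 0 := by
    rw [Finset.sum_ite_eq, if_pos hc, sq]
  rw [h2, Finset.mul_sum, Finset.sum_filter, ← Finset.sum_add_distrib]
  refine Finset.sum_congr rfl fun c' _ => ?_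
  by_cases h3 : c = c'
  · subst h3
    simp
  · have he : (ev c' = ev c) ↔ (ev c = ev c') := eq_comm
    by_cases h4 : ev c = ev c'
    · rw [if_pos (he.2 h4), if_neg h3, if_pos ⟨h4, h3⟩, zero_add]
    · rw [if_neg (fun h => h4 (he.1 h)), if_neg h3, if_neg (fun h => h4 h.1), zero_add]

/-- a weighted sum of fibre sums -/
theorem mul_fib {U W : Finset (ι → ℤ)} (ev : (ι → ℤ) →+ G) (f g : (ι → ℤ) → ℝ) :
    ∑ d ∈ U, (∑ c ∈ W with ev c = ev d, f c) * g d =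
      ∑ q ∈ U ×ˢ W with ev q.1 = ev q.2, g q.1 * f q.2 := by
  rw [Finset.sum_filter, Finset.sum_product]
  refine Finset.sum_congr rfl fun d _ => ?_
  rw [Finset.sum_mul, Finset.sum_filter]
  refine Finset.sum_congr rfl fun c _ => ?_
  have he : (ev c = ev d) ↔ (ev d = ev c) := eq_comm
  by_cases h4 : ev d = ev c
  · rw [if_pos (he.2 h4), if_pos h4, mul_comm]
  · rw [if_neg (fun h => h4 (he.1 h)), if_neg h4]

/-- indicator -/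
def ind (p : Prop) : ℝ := if p then 1 else 0

theorem ind_true {p : Prop} (h : p) : ind p = 1 := if_pos h
theorem ind_false {p : Prop} (h : ¬ p) : ind p = 0 := if_neg h
theorem ind_nonneg (p : Prop) : 0 ≤ ind p := by
  unfold ind
  split_ifs <;> norm_num

theorem sum_ind {α : Type} (s : Finset α) (p : α → Prop) [DecidablePred p] :
    ∑ q ∈ s, ind (p q) = (#{q ∈ s | p q} : ℝ) := by
  rw [Finset.card_filter]
  push_cast
  refine Finset.sum_congr rfl fun q _ => ?_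
  unfold ind
  by_cases h : p q <;> simp [h]

/-- the pairs of norm five -/
def TT (ev : (ι → ℤ) →+ G) : Finset ((ι → ℤ) × (ι → ℤ)) :=
  {q ∈ Vn ι 5 ×ˢ Vn ι 5 | ev q.1 = ev q.2 ∧ q.1 ≠ q.2}

/-- the pairs of norms four and five -/
def UU (ev : (ι → ℤ) →+ G) : Finset ((ι → ℤ) × (ι → ℤ)) :=
  {q ∈ Vn ι 4 ×ˢ Vn ι 5 | ev q.1 = ev q.2}

theorem P5_eq (ev : (ι → ℤ) →+ G) (A B : (ι → ℤ) → Prop) :
    (P5 ev A B : ℝ) = ∑ q ∈ TT ev, ind (A q.1 ∧ B q.2) := by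
  rw [sum_ind]
  unfold P5 TT
  rw [Finset.filter_filter]
  congr 2
  ext q
  simp only [mem_filter, and_assoc]

theorem P4_eq (ev : (ι → ℤ) →+ G) (A B : (ι → ℤ) → Prop) :
    (P4 ev A B : ℝ) = ∑ q ∈ UU ev, ind (A q.1 ∧ B q.2) := by
  rw [sum_ind]
  unfold P4 UU
  rw [Finset.filter_filter]

theorem P5_symm (ev : (ι → ℤ) →+ G) (A B : (ι → ℤ) → Prop) : P5 ev A B = P5 ev B A := by
  unfold P5
  refine Finset.card_nbij' Prod.swap Prod.swap ?_ ?_ (fun q _ => Prod.swap_swap q)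
    (fun q _ => Prod.swap_swap q)
  · intro q hq
    simp only [Finset.coe_filter, Set.mem_ofPred_eq, mem_product, Prod.fst_swap,
      Prod.snd_swap] at hq ⊢
    exact ⟨⟨hq.1.2, hq.1.1⟩, hq.2.1.symm, hq.2.2.1.symm, hq.2.2.2.2, hq.2.2.2.1⟩
  · intro q hq
    simp only [Finset.coe_filter, Set.mem_ofPred_eq, mem_product, Prod.fst_swap,
      Prod.snd_swap] at hq ⊢
    exact ⟨⟨hq.1.2, hq.1.1⟩, hq.2.1.symm, hq.2.2.1.symm, hq.2.2.2.2, hq.2.2.2.1⟩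

/-- negligible pairs of norm five -/
def bad5 (q : (ι → ℤ) × (ι → ℤ)) : Prop :=
  ell q.1 + ell q.2 ≤ 6 ∧ ell q.1 ≤ 4 ∧ ell q.2 ≤ 4 ∧
      ¬ (t3 q.1 ∧ t22 q.2) ∧ ¬ (t22 q.1 ∧ t3 q.2) ∧ ¬ (t1 q.1 ∧ t32 q.2) ∧
      ¬ (t32 q.1 ∧ t1 q.2)

/-- negligible pairs of norms four and five -/
def bad4 (q : (ι → ℤ) × (ι → ℤ)) : Prop :=
  ell q.1 + ell q.2 ≤ 6 ∧ ell q.1 ≤ 3 ∧ ell q.2 ≤ 4 ∧ ¬ (e1 q.1 ∧ t22 q.2) ∧
    ¬ (e22 q.1 ∧ t1 q.2)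

theorem t3_or (c : ι → ℤ) (h : ell c = 3) : t3 c ∨ t22 c := by
  by_cases h1 : ∃ x, 3 ≤ (c x).natAbs
  · exact Or.inl ⟨h, h1⟩
  · refine Or.inr ⟨h, fun x => ?_⟩
    by_contra h2
    exact h1 ⟨x, by omega⟩

/-- the weights of pairs of norm five -/
theorem weight5 (q : (ι → ℤ) × (ι → ℤ)) (h1 : ell q.1 ≤ 5) (h2 : ell q.2 ≤ 5) :
    ((5 : ℝ) - ell q.1) * (5 - ell q.2) ≤ ind (t1 q.1 ∧ t1 q.2) +
      2 * (ind (t1 q.1 ∧ t22 q.2) + ind (t22 q.1 ∧ t1 q.2)) +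
      2 * (ind (t1 q.1 ∧ t3 q.2) + ind (t3 q.1 ∧ t1 q.2)) +
      4 * (ind (t3 q.1 ∧ t22 q.2) + ind (t22 q.1 ∧ t3 q.2)) +
      3 * (ind (t1 q.1 ∧ t32 q.2) + ind (t32 q.1 ∧ t1 q.2)) + 25 * ind (bad5 q) := by
  have n1 := ind_nonneg (t1 q.1 ∧ t1 q.2)
  have n2 := ind_nonneg (t1 q.1 ∧ t22 q.2)
  have n3 := ind_nonneg (t22 q.1 ∧ t1 q.2)
  have n4 := ind_nonneg (t1 q.1 ∧ t3 q.2)
  have n5 := ind_nonneg (t3 q.1 ∧ t1 q.2)
  have n6 := ind_nonneg (t3 q.1 ∧ t22 q.2)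
  have n7 := ind_nonneg (t22 q.1 ∧ t3 q.2)
  have n8 := ind_nonneg (t1 q.1 ∧ t32 q.2)
  have n9 := ind_nonneg (t32 q.1 ∧ t1 q.2)
  have n0 := ind_nonneg (bad5 q)
  have r1 : (ell q.1 : ℝ) ≤ 5 := by exact_mod_cast h1
  have r2 : (ell q.2 : ℝ) ≤ 5 := by exact_mod_cast h2
  have p1 : (0 : ℝ) ≤ ell q.1 := Nat.cast_nonneg _
  have p2 : (0 : ℝ) ≤ ell q.2 := Nat.cast_nonneg _
  by_cases e5 : ell q.1 = 5
  · rw [e5]
    push_cast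
    linarith
  by_cases f5 : ell q.2 = 5
  · rw [f5]
    push_cast
    linarith
  by_cases hb : bad5 q
  · rw [ind_true hb]
    have : ((5 : ℝ) - ell q.1) * (5 - ell q.2) ≤ 5 * 5 :=
      mul_le_mul (by linarith) (by linarith) (by linarith) (by norm_num)
    linarith
  -- not bad
  by_cases a1 : t3 q.1 ∧ t22 q.2
  · rw [ind_true a1, show ell q.1 = 3 from a1.1.1, show ell q.2 = 3 from a1.2.1]
    push_cast
    linarith
  by_cases a2 : t22 q.1 ∧ t3 q.2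
  · rw [ind_true a2, show ell q.1 = 3 from a2.1.1, show ell q.2 = 3 from a2.2.1]
    push_cast
    linarith
  by_cases a3 : t1 q.1 ∧ t32 q.2
  · rw [ind_true a3, show ell q.1 = 4 from a3.1, show ell q.2 = 2 from a3.2.1]
    push_cast
    linarith
  by_cases a4 : t32 q.1 ∧ t1 q.2
  · rw [ind_true a4, show ell q.1 = 2 from a4.1.1, show ell q.2 = 4 from a4.2]
    push_cast
    linarith
  have hs : ¬ ell q.1 + ell q.2 ≤ 6 := fun h =>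
    hb ⟨h, by omega, by omega, a1, a2, a3, a4⟩
  by_cases g1 : ell q.1 = 4
  · by_cases g2 : ell q.2 = 4
    · have g : t1 q.1 ∧ t1 q.2 := ⟨g1, g2⟩
      rw [ind_true g, g1, g2]
      push_cast
      linarith
    · have g3 : ell q.2 = 3 := by omega
      rcases t3_or q.2 g3 with g | g
      · have g' : t1 q.1 ∧ t3 q.2 := ⟨g1, g⟩
        rw [ind_true g', g1, g3]
        push_cast
        linarith
      · have g' : t1 q.1 ∧ t22 q.2 := ⟨g1, g⟩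
        rw [ind_true g', g1, g3]
        push_cast
        linarith
  · have g3 : ell q.1 = 3 := by omega
    have g2 : ell q.2 = 4 := by omega
    rcases t3_or q.1 g3 with g | g
    · have g' : t3 q.1 ∧ t1 q.2 := ⟨g, g2⟩
      rw [ind_true g', g2, g3]
      push_cast
      linarith
    · have g' : t22 q.1 ∧ t1 q.2 := ⟨g, g2⟩
      rw [ind_true g', g2, g3]
      push_cast
      linarith

/-- the weights of pairs of norms four and five -/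
theorem weight4 (q : (ι → ℤ) × (ι → ℤ)) (h1 : ell q.1 ≤ 4) (h2 : ell q.2 ≤ 5) :
    ((4 : ℝ) - ell q.1) * (5 - ell q.2) ≤ ind (e1 q.1 ∧ t1 q.2) +
      2 * ind (e1 q.1 ∧ t22 q.2) + 2 * ind (e22 q.1 ∧ t1 q.2) + 20 * ind (bad4 q) := by
  have n1 := ind_nonneg (e1 q.1 ∧ t1 q.2)
  have n2 := ind_nonneg (e1 q.1 ∧ t22 q.2)
  have n3 := ind_nonneg (e22 q.1 ∧ t1 q.2)
  have n0 := ind_nonneg (bad4 q)
  have r1 : (ell q.1 : ℝ) ≤ 4 := by exact_mod_cast h1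
  have r2 : (ell q.2 : ℝ) ≤ 5 := by exact_mod_cast h2
  have p1 : (0 : ℝ) ≤ ell q.1 := Nat.cast_nonneg _
  have p2 : (0 : ℝ) ≤ ell q.2 := Nat.cast_nonneg _
  by_cases e5 : ell q.1 = 4
  · rw [e5]
    push_cast
    linarith
  by_cases f5 : ell q.2 = 5
  · rw [f5]
    push_cast
    linarith
  by_cases hb : bad4 q
  · rw [ind_true hb]
    have : ((4 : ℝ) - ell q.1) * (5 - ell q.2) ≤ 4 * 5 :=
      mul_le_mul (by linarith) (by linarith) (by linarith) (by norm_num)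
    linarith
  by_cases a1 : e1 q.1 ∧ t22 q.2
  · rw [ind_true a1, show ell q.1 = 3 from a1.1, show ell q.2 = 3 from a1.2.1]
    push_cast
    linarith
  by_cases a2 : e22 q.1 ∧ t1 q.2
  · rw [ind_true a2, show ell q.1 = 2 from a2.1.1, show ell q.2 = 4 from a2.2]
    push_cast
    linarith
  have hs : ¬ ell q.1 + ell q.2 ≤ 6 := fun h =>
    hb ⟨h, by omega, by omega, a1, a2⟩
  have g : e1 q.1 ∧ t1 q.2 := ⟨show ell q.1 = 3 by omega, show ell q.2 = 4 by omega⟩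
  rw [ind_true g, show ell q.1 = 3 from g.1, show ell q.2 = 4 from g.2]
  push_cast
  linarith

/-- pairs of norm five, with `T_N5`, `T_E5`, `T_U4` -/
theorem pairs5 (hV : T_V) (hE5 : T_E5) (hU4 : T_U4) (ev : (ι → ℤ) →+ G) (hP : PC 4 ev) :
    ∑ q ∈ TT ev, ((5 : ℝ) - ell q.1) * (5 - ell q.2) ≤
      (z10 ev : ℝ) / 36 + 8 * (2 * Fintype.card ι) ^ 3 +
      25 * #{q ∈ Vn ι 5 ×ˢ Vn ι 5 | ev q.1 = ev q.2 ∧ q.1 ≠ q.2 ∧ ell q.1 + ell q.2 ≤ 6 ∧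
      ell q.1 ≤ 4 ∧ ell q.2 ≤ 4 ∧
      ¬ (t3 q.1 ∧ t22 q.2) ∧ ¬ (t22 q.1 ∧ t3 q.2) ∧ ¬ (t1 q.1 ∧ t32 q.2) ∧
      ¬ (t32 q.1 ∧ t1 q.2)} := by
  have hb : (#{q ∈ Vn ι 5 ×ˢ Vn ι 5 | ev q.1 = ev q.2 ∧ q.1 ≠ q.2 ∧ ell q.1 + ell q.2 ≤ 6 ∧
      ell q.1 ≤ 4 ∧ ell q.2 ≤ 4 ∧
      ¬ (t3 q.1 ∧ t22 q.2) ∧ ¬ (t22 q.1 ∧ t3 q.2) ∧ ¬ (t1 q.1 ∧ t32 q.2) ∧
      ¬ (t32 q.1 ∧ t1 q.2)} : ℝ) = ∑ q ∈ TT ev, ind (bad5 q) := by
    rw [sum_ind]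
    unfold TT
    rw [Finset.filter_filter]
    congr 2
    ext q
    simp only [mem_filter, and_assoc, bad5]
  rw [hb]
  have h1 : ∑ q ∈ TT ev, ((5 : ℝ) - ell q.1) * (5 - ell q.2) ≤
      ∑ q ∈ TT ev, (ind (t1 q.1 ∧ t1 q.2) +
      2 * (ind (t1 q.1 ∧ t22 q.2) + ind (t22 q.1 ∧ t1 q.2)) +
      2 * (ind (t1 q.1 ∧ t3 q.2) + ind (t3 q.1 ∧ t1 q.2)) +
      4 * (ind (t3 q.1 ∧ t22 q.2) + ind (t22 q.1 ∧ t3 q.2)) +
      3 * (ind (t1 q.1 ∧ t32 q.2) + ind (t32 q.1 ∧ t1 q.2)) + 25 * ind (bad5 q)) := by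
    refine Finset.sum_le_sum fun q hq => ?_
    unfold TT at hq
    rw [mem_filter, mem_product] at hq
    exact weight5 q (ell_le_of_mem hV hq.1.1) (ell_le_of_mem hV hq.1.2)
  simp only [Finset.sum_add_distrib, ← Finset.mul_sum] at h1
  rw [← P5_eq, ← P5_eq, ← P5_eq, ← P5_eq, ← P5_eq, ← P5_eq, ← P5_eq, ← P5_eq, ← P5_eq,
    P5_symm ev t22 t1, P5_symm ev t3 t1, P5_symm ev t22 t3, P5_symm ev t32 t1] at h1
  obtain ⟨u1, u2, u3, u4, u5⟩ := hE5 ι G ev hP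
  obtain ⟨-, w2, w3⟩ := hU4 ι G ev hP
  have u1' : 36 * (P5 ev t1 t1 : ℝ) + 72 * P5 ev t1 t22 + 72 * P5 ev t1 t3 + 72 * P5 ev t3 t22 +
      48 * P5 ev t1 t32 ≤ z10 ev := by exact_mod_cast u1
  have u2' : 12 * (P5 ev t1 t22 : ℝ) + 12 * P5 ev t3 t22 + 12 * P5 ev t1 t32 ≤ z10b ev := by
    exact_mod_cast u2
  have u3' : 12 * (P5 ev t1 t3 : ℝ) + 12 * P5 ev t3 t22 + 6 * P5 ev t1 t32 ≤ z10c ev := by
    exact_mod_cast u3
  have u4' : 4 * (P5 ev t3 t22 : ℝ) ≤ ga ev := by exact_mod_cast u4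
  have u5' : 6 * (P5 ev t1 t32 : ℝ) ≤ ga ev := by exact_mod_cast u5
  have w2' : (z10c ev : ℝ) + 6 * ga ev ≤ 24 * (2 * Fintype.card ι) ^ 3 := by exact_mod_cast w2
  have w3' : (z10b ev : ℝ) ≤ 24 * (2 * Fintype.card ι) ^ 3 := by exact_mod_cast w3
  have n1 : (0 : ℝ) ≤ ga ev := Nat.cast_nonneg _
  linarith

/-- pairs of norms four and five, with `T_E4`, `T_U4` -/
theorem pairs4 (hV : T_V) (hE4 : T_E4) (hU4 : T_U4) (ev : (ι → ℤ) →+ G) (hP : PC 4 ev) :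
    ∑ q ∈ UU ev, ((4 : ℝ) - ell q.1) * (5 - ell q.2) ≤
      2 * (2 * Fintype.card ι) ^ 3 - (al ev : ℝ) / 6 +
      20 * #{q ∈ Vn ι 4 ×ˢ Vn ι 5 | ev q.1 = ev q.2 ∧ ell q.1 + ell q.2 ≤ 6 ∧
      ell q.1 ≤ 3 ∧ ell q.2 ≤ 4 ∧ ¬ (e1 q.1 ∧ t22 q.2) ∧ ¬ (e22 q.1 ∧ t1 q.2)} := by
  have hb : (#{q ∈ Vn ι 4 ×ˢ Vn ι 5 | ev q.1 = ev q.2 ∧ ell q.1 + ell q.2 ≤ 6 ∧
      ell q.1 ≤ 3 ∧ ell q.2 ≤ 4 ∧ ¬ (e1 q.1 ∧ t22 q.2) ∧ ¬ (e22 q.1 ∧ t1 q.2)} : ℝ) =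
      ∑ q ∈ UU ev, ind (bad4 q) := by
    rw [sum_ind]
    unfold UU
    rw [Finset.filter_filter]
    congr 2
    ext q
    simp only [mem_filter, and_assoc, bad4]
  rw [hb]
  have h1 : ∑ q ∈ UU ev, ((4 : ℝ) - ell q.1) * (5 - ell q.2) ≤
      ∑ q ∈ UU ev, (ind (e1 q.1 ∧ t1 q.2) +
      2 * ind (e1 q.1 ∧ t22 q.2) + 2 * ind (e22 q.1 ∧ t1 q.2) + 20 * ind (bad4 q)) := by
    refine Finset.sum_le_sum fun q hq => ?_
    unfold UU at hq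
    rw [mem_filter, mem_product] at hq
    exact weight4 q (ell_le_of_mem hV hq.1.1) (ell_le_of_mem hV hq.1.2)
  simp only [Finset.sum_add_distrib, ← Finset.mul_sum] at h1
  rw [← P4_eq, ← P4_eq, ← P4_eq] at h1
  obtain ⟨u1, u2, u3⟩ := hE4 ι G ev hP
  obtain ⟨w1, -, -⟩ := hU4 ι G ev hP
  have u1' : 12 * (P4 ev e1 t1 : ℝ) + 12 * P4 ev e1 t22 + 12 * P4 ev e22 t1 ≤ z9 ev := by
    exact_mod_cast u1
  have u2' : 4 * (P4 ev e1 t22 : ℝ) ≤ al ev := by exact_mod_cast u2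
  have u3' : 12 * (P4 ev e22 t1 : ℝ) ≤ al ev := by exact_mod_cast u3
  have w1' : (z9 ev : ℝ) + 6 * al ev ≤ 24 * (2 * Fintype.card ι) ^ 3 := by exact_mod_cast w1
  linarith

/-- first moment of the defects -/
theorem sum_DD (hI : T_I) (hF : T_F) (ev : (ι → ℤ) →+ G) (hP : PC 4 ev) :
    ∑ d ∈ Vn ι 4, DD 4 ev d = 4 * #(Vn ι 4) := by
  have h1 := first_id hI hF (by norm_num) ev hP
  have h1' : (∑ d ∈ Vn ι 4, ((((4 : ℕ) : ℝ) + 1) * nb 4 ev d - 2 * Fintype.card ι)) =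
      ∑ d ∈ Vn ι 4, (((4 : ℕ) : ℝ) - ell d) := by
    exact_mod_cast h1
  rw [Finset.sum_congr rfl fun d hd => y_eq hI (by norm_num) ev hP hd, Finset.sum_sub_distrib,
    Finset.sum_sub_distrib, Finset.sum_const, nsmul_eq_mul] at h1'
  push_cast at h1'
  linarith

/-- second moment of the defects of single vectors -/
theorem sum_def_sq (hV : T_V) (hI : T_I) (hF : T_F) (hRC : T_RC) (ev : (ι → ℤ) →+ G)
    (hP : PC 4 ev) :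
    ∑ c ∈ Vn ι 5, ((5 : ℝ) - ell c) ^ 2 ≤ 8 * #(Vn ι 4) - 4 * #{d ∈ Vn ι 4 | ell d = 4} +
      15 * #{c ∈ Vn ι 5 | ell c ≤ 2} := by
  have h1 : ∑ c ∈ Vn ι 5, ((5 : ℝ) - ell c) ^ 2 ≤
      ∑ c ∈ Vn ι 5, (2 * ((5 : ℝ) - ell c) - ind (ell c = 4) + 15 * ind (ell c ≤ 2)) := by
    refine Finset.sum_le_sum fun c hc => ?_
    have h2 : ell c ≤ 5 := ell_le_of_mem hV hc
    have h3 : ell c = 5 ∨ ell c = 4 ∨ ell c = 3 ∨ ell c = 2 ∨ ell c = 1 ∨ ell c = 0 := by omega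
    rcases h3 with h | h | h | h | h | h <;> rw [h] <;> norm_num [ind]
  rw [Finset.sum_add_distrib, Finset.sum_sub_distrib, ← Finset.mul_sum, ← Finset.mul_sum] at h1
  have h2 : ∑ c ∈ Vn ι 5, ((5 : ℝ) - ell c) = 4 * #(Vn ι 4) := by
    rw [← sum_DD hI hF ev hP]
    unfold DD
    have hI' := (hI ι G 4 ev hP (by norm_num)).2
    rw [sum_fib ev hI']
    refine Finset.sum_congr rfl fun c _ => ?_
    push_cast
    ring
  have h3 : ∑ c ∈ Vn ι 5, ind (ell c = 4) = 4 * #{d ∈ Vn ι 4 | ell d = 4} := by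
    rw [sum_ind]
    exact_mod_cast hRC ι 4 (by norm_num)
  have h4 : ∑ c ∈ Vn ι 5, ind (ell c ≤ 2) = #{c ∈ Vn ι 5 | ell c ≤ 2} := by
    rw [sum_ind]
  rw [h2, h3, h4] at h1
  linarith

/-- second moment of `y`, upper bound -/
theorem second_moment (hV : T_V) (hI : T_I) (hF : T_F) (hRC : T_RC) (hE5 : T_E5) (hE4 : T_E4)
    (hU4 : T_U4) (ev : (ι → ℤ) →+ G) (hP : PC 4 ev) :
    ∑ d ∈ Vn ι 4, (5 * (nb 4 ev d : ℝ) - 2 * Fintype.card ι) ^ 2 ≤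
      -15 * #(Vn ι 4) + 3 * #{d ∈ Vn ι 4 | ell d = 4} + (z10 ev : ℝ) / 36 +
      12 * (2 * Fintype.card ι) ^ 3 - (al ev : ℝ) / 3 +
      15 * #{c ∈ Vn ι 5 | ell c ≤ 2} +
      25 * #{q ∈ Vn ι 5 ×ˢ Vn ι 5 | ev q.1 = ev q.2 ∧ q.1 ≠ q.2 ∧ ell q.1 + ell q.2 ≤ 6 ∧
      ell q.1 ≤ 4 ∧ ell q.2 ≤ 4 ∧
      ¬ (t3 q.1 ∧ t22 q.2) ∧ ¬ (t22 q.1 ∧ t3 q.2) ∧ ¬ (t1 q.1 ∧ t32 q.2) ∧
      ¬ (t32 q.1 ∧ t1 q.2)} +
      40 * #{q ∈ Vn ι 4 ×ˢ Vn ι 5 | ev q.1 = ev q.2 ∧ ell q.1 + ell q.2 ≤ 6 ∧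
      ell q.1 ≤ 3 ∧ ell q.2 ≤ 4 ∧ ¬ (e1 q.1 ∧ t22 q.2) ∧ ¬ (e22 q.1 ∧ t1 q.2)} := by
  have hI' := hI ι G 4 ev hP (by norm_num)
  have hy : ∑ d ∈ Vn ι 4, (5 * (nb 4 ev d : ℝ) - 2 * Fintype.card ι) ^ 2 =
      ∑ d ∈ Vn ι 4, (DD 4 ev d - ell d) ^ 2 := by
    refine Finset.sum_congr rfl fun d hd => ?_
    have h := y_eq hI (by norm_num) ev hP hd
    rw [← h]
    push_cast
    ring
  have hexp : ∑ d ∈ Vn ι 4, (DD 4 ev d - ell d) ^ 2 =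
      ∑ d ∈ Vn ι 4, (DD 4 ev d) ^ 2 - 8 * ∑ d ∈ Vn ι 4, DD 4 ev d +
        2 * ∑ d ∈ Vn ι 4, DD 4 ev d * (4 - ell d) + ∑ d ∈ Vn ι 4, (ell d : ℝ) ^ 2 := by
    rw [Finset.mul_sum, Finset.mul_sum, ← Finset.sum_sub_distrib, ← Finset.sum_add_distrib,
      ← Finset.sum_add_distrib]
    refine Finset.sum_congr rfl fun d _ => ?_
    ring
  have hsq : ∑ d ∈ Vn ι 4, (DD 4 ev d) ^ 2 =
      ∑ c ∈ Vn ι 5, ((5 : ℝ) - ell c) ^ 2 + ∑ q ∈ TT ev, ((5 : ℝ) - ell q.1) * (5 - ell q.2) := by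
    unfold TT
    rw [← sq_fib ev hI'.2 (fun c => (5 : ℝ) - ell c)]
    refine Finset.sum_congr rfl fun d _ => ?_
    unfold DD
    congr 1
    refine Finset.sum_congr rfl fun c _ => ?_
    push_cast
    ring
  have hmul : ∑ d ∈ Vn ι 4, DD 4 ev d * (4 - ell d) =
      ∑ q ∈ UU ev, ((4 : ℝ) - ell q.1) * (5 - ell q.2) := by
    unfold UU
    rw [← mul_fib ev (fun c => (5 : ℝ) - ell c) (fun d => (4 : ℝ) - ell d)]
    refine Finset.sum_congr rfl fun d _ => ?_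
    unfold DD
    congr 1
    refine Finset.sum_congr rfl fun c _ => ?_
    push_cast
    ring
  have hell : ∑ d ∈ Vn ι 4, (ell d : ℝ) ^ 2 ≤ 9 * #(Vn ι 4) + 7 * #{d ∈ Vn ι 4 | ell d = 4} := by
    have h1 : ∑ d ∈ Vn ι 4, (ell d : ℝ) ^ 2 ≤ ∑ d ∈ Vn ι 4, (9 + 7 * ind (ell d = 4)) := by
      refine Finset.sum_le_sum fun c hc => ?_
      have h2 : ell c ≤ 4 := ell_le_of_mem hV hc
      have h3 : ell c = 4 ∨ ell c = 3 ∨ ell c = 2 ∨ ell c = 1 ∨ ell c = 0 := by omega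
      rcases h3 with h | h | h | h | h <;> rw [h] <;> norm_num [ind]
    rw [Finset.sum_add_distrib, ← Finset.mul_sum, Finset.sum_const, nsmul_eq_mul] at h1
    have h4 : ∑ d ∈ Vn ι 4, ind (ell d = 4) = #{d ∈ Vn ι 4 | ell d = 4} := by
      rw [sum_ind]
    rw [h4] at h1
    linarith
  have hd := sum_def_sq hV hI hF hRC ev hP
  have h5 := pairs5 hV hE5 hU4 ev hP
  have h4 := pairs4 hV hE4 hU4 ev hP
  have hs := sum_DD hI hF ev hP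
  rw [hy, hexp, hsq, hmul, hs]
  linarith

/-- Module K1. -/
theorem k1 (hN5 : T_N5) (hE5 : T_E5) (hE4 : T_E4) (hU4 : T_U4) (hZ4 : T_Z4) (hAL : T_AL)
    (hRC : T_RC) (hC : T_C) (hI : T_I) (hF : T_F) (hV : T_V) : T_K1 := by
  obtain ⟨CN, hCN⟩ := hN5
  obtain ⟨CZ, hCZ⟩ := hZ4
  obtain ⟨CA, hCA⟩ := hAL
  obtain ⟨C2, hC2⟩ := hC.2.1 4 (by norm_num)
  obtain ⟨C3, hC3⟩ := hC.2.2 5 2
  -- the total constant
  set K : ℝ := 65 * |CN| + |CZ| + |CA| + 11 * |C2| + 15 * |C3| with hK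
  obtain ⟨m₀, hm₀⟩ := exists_nat_gt K
  refine ⟨m₀ + 1, ?_⟩
  intro ι _ G _ _ ev hP hodd hι hmod
  have hι1 : 1 ≤ Fintype.card ι := by omega
  have a1 := (hCN ι G ev hP hodd hι1).1
  have a2 := (hCN ι G ev hP hodd hι1).2
  have a3 := hCZ ι G ev hP hodd hι1
  have a4 := hCA ι G ev hP hodd hι1
  have a5 := abs_le.1 (hC2 ι hι1)
  have a6 := hC3 ι hι1
  have b := second_moment hV hI hF hRC hE5 hE4 hU4 ev hP
  -- the lower bound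
  have hlow : (0 : ℝ) ≤ ∑ d ∈ Vn ι 4, ((5 * (nb 4 ev d : ℝ) - 2 * Fintype.card ι) + 1) *
      ((5 * (nb 4 ev d : ℝ) - 2 * Fintype.card ι) - 4) := by
    refine Finset.sum_nonneg fun d _ => ?_
    obtain ⟨q, hq⟩ : ∃ q : ℕ, 2 * Fintype.card ι = 5 * q + 1 :=
      ⟨(2 * Fintype.card ι) / 5, by omega⟩
    have hq' : 2 * (Fintype.card ι : ℝ) = 5 * q + 1 := by exact_mod_cast hq
    rw [hq']
    have h1 : ((5 * (nb 4 ev d : ℝ) - (5 * q + 1)) + 1) *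
        ((5 * (nb 4 ev d : ℝ) - (5 * q + 1)) - 4) =
        25 * ((((nb 4 ev d : ℤ) - q) * ((nb 4 ev d : ℤ) - q - 1) : ℤ) : ℝ) := by
      push_cast
      ring
    rw [h1]
    have h2 : (0 : ℤ) ≤ ((nb 4 ev d : ℤ) - q) * ((nb 4 ev d : ℤ) - q - 1) := by
      rcases le_or_gt ((nb 4 ev d : ℤ) - q) 0 with h | h
      · exact mul_nonneg_of_nonpos_of_nonpos h (by linarith)
      · exact mul_nonneg h.le (by linarith)
    have h3 : (0 : ℝ) ≤ ((((nb 4 ev d : ℤ) - q) * ((nb 4 ev d : ℤ) - q - 1) : ℤ) : ℝ) := by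
      exact_mod_cast h2
    linarith
  have hexp : ∑ d ∈ Vn ι 4, ((5 * (nb 4 ev d : ℝ) - 2 * Fintype.card ι) + 1) *
      ((5 * (nb 4 ev d : ℝ) - 2 * Fintype.card ι) - 4) =
      ∑ d ∈ Vn ι 4, (5 * (nb 4 ev d : ℝ) - 2 * Fintype.card ι) ^ 2 -
      3 * ∑ d ∈ Vn ι 4, (5 * (nb 4 ev d : ℝ) - 2 * Fintype.card ι) - 4 * #(Vn ι 4) := by
    have e : (4 * #(Vn ι 4) : ℝ) = ∑ d ∈ Vn ι 4, (4 : ℝ) := by
      rw [Finset.sum_const, nsmul_eq_mul]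
      ring
    rw [e, Finset.mul_sum, ← Finset.sum_sub_distrib, ← Finset.sum_sub_distrib]
    refine Finset.sum_congr rfl fun d _ => ?_
    ring
  have hfirst : ∑ d ∈ Vn ι 4, (5 * (nb 4 ev d : ℝ) - 2 * Fintype.card ι) =
      ∑ d ∈ Vn ι 4, ((4 : ℝ) - ell d) := by
    have h1 := first_id hI hF (by norm_num) ev hP
    have h1' : ∑ d ∈ Vn ι 4, (((((4 : ℕ) : ℝ) + 1) * nb 4 ev d) - 2 * Fintype.card ι) =
        ∑ d ∈ Vn ι 4, (((4 : ℕ) : ℝ) - ell d) := by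
      exact_mod_cast h1
    rw [show ((4 : ℕ) : ℝ) = 4 by norm_num] at h1'
    rw [← h1']
    refine Finset.sum_congr rfl fun d _ => ?_
    ring
  -- split of `V₄`
  have hsplit : (#{d ∈ Vn ι 4 | ell d = 4} : ℝ) + ∑ d ∈ Vn ι 4, ((4 : ℝ) - ell d) ≥
      #(Vn ι 4) := by
    have h1 : ∑ d ∈ Vn ι 4, (1 : ℝ) ≤ ∑ d ∈ Vn ι 4, (ind (ell d = 4) + ((4 : ℝ) - ell d)) := by
      refine Finset.sum_le_sum fun c hc => ?_
      have h2 : ell c ≤ 4 := ell_le_of_mem hV hc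
      have h3 : ell c = 4 ∨ ell c = 3 ∨ ell c = 2 ∨ ell c = 1 ∨ ell c = 0 := by omega
      rcases h3 with h | h | h | h | h <;> rw [h] <;> norm_num [ind]
    rw [Finset.sum_add_distrib, Finset.sum_const, nsmul_eq_mul, mul_one] at h1
    have h4 : ∑ d ∈ Vn ι 4, ind (ell d = 4) = #{d ∈ Vn ι 4 | ell d = 4} := by
      rw [sum_ind]
    rw [h4] at h1
    exact h1
  have hS : (#{d ∈ Vn ι 4 | ell d = 4} : ℝ) + #{d ∈ Vn ι 4 | ell d = 3} ≤ #(Vn ι 4) := by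
    have : #{d ∈ Vn ι 4 | ell d = 4} + #{d ∈ Vn ι 4 | ell d = 3} ≤ #(Vn ι 4) := by
      rw [← Finset.card_union_of_disjoint]
      · exact Finset.card_le_card (Finset.union_subset (Finset.filter_subset _ _)
          (Finset.filter_subset _ _))
      · rw [Finset.disjoint_filter]
        intro c _ h1 h2
        omega
    exact_mod_cast this
  rw [hexp, hfirst] at hlow
  -- abbreviations
  set m : ℝ := (Fintype.card ι : ℝ) with hm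
  set n : ℝ := (#(Vn ι 4) : ℝ) with hn
  set N : ℝ := (#{d ∈ Vn ι 4 | ell d = 4} : ℝ) with hN
  set S : ℝ := (#{d ∈ Vn ι 4 | ell d = 3} : ℝ) with hS'
  have hmK : K + 1 ≤ m := by
    have : ((m₀ + 1 : ℕ) : ℝ) ≤ m := by
      rw [hm]
      exact_mod_cast hι
    push_cast at this
    linarith
  have hK0 : 0 ≤ K := by positivity
  have hm0 : 0 < m := by linarith
  have hm2 : 0 < m ^ 2 := by positivity
  have c1 : CN * m ^ 2 ≤ |CN| * m ^ 2 := mul_le_mul_of_nonneg_right (le_abs_self _) hm2.le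
  have c2 : CZ * m ^ 2 ≤ |CZ| * m ^ 2 := mul_le_mul_of_nonneg_right (le_abs_self _) hm2.le
  have c3 : CA * m ^ 2 ≤ |CA| * m ^ 2 := mul_le_mul_of_nonneg_right (le_abs_self _) hm2.le
  have c4 : C2 * m ^ 2 ≤ |C2| * m ^ 2 := mul_le_mul_of_nonneg_right (le_abs_self _) hm2.le
  have c5 : C3 * m ^ 2 ≤ |C3| * m ^ 2 := mul_le_mul_of_nonneg_right (le_abs_self _) hm2.le
  have d1 := mul_nonneg (abs_nonneg CZ) hm2.le
  have d2 := mul_nonneg (abs_nonneg CA) hm2.le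
  have d3 := mul_nonneg (abs_nonneg C2) hm2.le
  have hKm : K * m ^ 2 = 65 * (|CN| * m ^ 2) + |CZ| * m ^ 2 + |CA| * m ^ 2 +
      11 * (|C2| * m ^ 2) + 15 * (|C3| * m ^ 2) := by
    rw [hK]
    ring
  have hfin : (K + 1) * m ^ 2 ≤ m ^ 3 := by
    rw [show m ^ 3 = m * m ^ 2 by ring]
    exact mul_le_mul_of_nonneg_right hmK hm2.le
  have e3 : (2 * m) ^ 3 = 8 * m ^ 3 := by ring
  rw [e3] at *
  have a5' := a5.1
  norm_num at a5'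
  have f2 : ((4 - 2)! : ℝ) = 2 := by norm_num [Nat.factorial]
  nlinarith
end

end Pool.Agent.H87.GC
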